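import Pool.Agent.N939.ME.Stm

/-!
# Project ME: existence and basic facts of the adjoint operator (ME2)
-/

set_option autoImplicit false
open MeasureTheory ProbabilityTheory Filter Topology
open scoped Classical

namespace Pool.Agent.N80.ME

open Pool.Agent.N939.ME

section

variable {S : Type} [MeasurableSpace S] {Q : Kernel S S} {ν : Measure S}

theorem int_mul {f g : S → ℝ} (hf : MemLp f 2 ν) (hg : MemLp g 2 ν) :
    Integrable (fun x => f x * g x) ν := hf.integrable_mul hg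

theorem int_sq {f : S → ℝ} (hf : MemLp f 2 ν) : Integrable (fun x => f x ^ 2) ν := hf.integrable_sq

/-- Cauchy-Schwarz -/
theorem cs {f g : S → ℝ} (hf : MemLp f 2 ν) (hg : MemLp g 2 ν) :
    |∫ x, f x * g x ∂ν| ≤ √(∫ x, f x ^ 2 ∂ν) * √(∫ x, g x ^ 2 ∂ν) := by
  set A := ∫ x, f x ^ 2 ∂ν with hA
  set B := ∫ x, g x ^ 2 ∂ν with hB
  set I := ∫ x, f x * g x ∂ν with hI
  have hA0 : 0 ≤ A := integral_nonneg fun x => sq_nonneg _
  have hB0 : 0 ≤ B := integral_nonneg fun x => sq_nonneg _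
  have key : ∀ s t : ℝ, 0 ≤ s ^ 2 * A + 2 * (s * t) * I + t ^ 2 * B := by
    intro s t
    have h1 : ∫ x, (s * f x + t * g x) ^ 2 ∂ν = s ^ 2 * A + 2 * (s * t) * I + t ^ 2 * B := by
      have h2 : (fun x => (s * f x + t * g x) ^ 2) =
          fun x => (s ^ 2 * f x ^ 2 + (2 * (s * t)) * (f x * g x)) + t ^ 2 * g x ^ 2 := by
        funext x; ring
      rw [h2, integral_add, integral_add, integral_const_mul, integral_const_mul,
        integral_const_mul]
      · exact (int_sq hf).const_mul _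
      · exact (int_mul hf hg).const_mul _
      · exact ((int_sq hf).const_mul _).add ((int_mul hf hg).const_mul _)
      · exact (int_sq hg).const_mul _
    rw [← h1]
    exact integral_nonneg fun x => sq_nonneg _
  have hd : I ^ 2 ≤ A * B := by
    by_cases hA1 : A = 0
    · by_cases hI0 : I = 0
      · rw [hI0, hA1]
        simp
      · have h1 := key (-(B + 1) / (2 * I)) 1
        have h2 : 2 * (-(B + 1) / (2 * I) * 1) * I = -(B + 1) := by
          field_simp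
        rw [h2, hA1] at h1
        linarith
    · have hA2 : 0 < A := lt_of_le_of_ne hA0 (Ne.symm hA1)
      have h1 := key (-I) A
      have h2 : (-I) ^ 2 * A + 2 * (-I * A) * I + A ^ 2 * B = A * (A * B - I ^ 2) := by ring
      rw [h2] at h1
      have h3 := nonneg_of_mul_nonneg_right h1 hA2
      linarith
  rw [← Real.sqrt_mul hA0, ← Real.sqrt_sq_eq_abs]
  exact Real.sqrt_le_sqrt hd

end

/-- the facts on the forward operator for the given chain -/
structure TF {S : Type} [MeasurableSpace S] (Q : Kernel S S) (ν : Measure S) : Prop where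
  tm : ∀ h : S → ℝ, Measurable h → Measurable (TT Q h)
  ti : ∀ h : S → ℝ, Integrable h ν → Integrable (TT Q h) ν ∧ ∫ x, TT Q h x ∂ν = ∫ x, h x ∂ν ∧
      (∀ᵐ x ∂ν, Integrable h (Q x)) ∧ ∀ᵐ x ∂ν, |TT Q h x| ≤ TT Q (fun y => |h y|) x
  t2 : ∀ h : S → ℝ, MemLp h 2 ν → MemLp (TT Q h) 2 ν ∧
      ∫ x, TT Q h x ^ 2 ∂ν ≤ ∫ x, h x ^ 2 ∂ν ∧
      (∀ᵐ x ∂ν, MemLp h 2 (Q x)) ∧ ∀ᵐ x ∂ν, TT Q h x ^ 2 ≤ TT Q (fun y => h y ^ 2) x
  tae : ∀ h h' : S → ℝ, h =ᵐ[ν] h' → TT Q h =ᵐ[ν] TT Q h'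
  tle : ∀ h h' : S → ℝ, Integrable h ν → Integrable h' ν → (∀ᵐ x ∂ν, h x ≤ h' x) →
      ∀ᵐ x ∂ν, TT Q h x ≤ TT Q h' x
  tadd : ∀ h h' : S → ℝ, Integrable h ν → Integrable h' ν →
      TT Q (fun y => h y + h' y) =ᵐ[ν] fun x => TT Q h x + TT Q h' x

section

variable {S : Type} [MeasurableSpace S] {Q : Kernel S S} {ν : Measure S}

theorem TT_smul (c : ℝ) (h : S → ℝ) : TT Q (fun y => c * h y) = fun x => c * TT Q h x := by
  funext x
  exact integral_const_mul _ _

variable [IsMarkovKernel Q] [IsProbabilityMeasure ν]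

theorem exists_bk (hT : TF Q ν) (a : S → ℝ) (ha : MemLp a 2 ν) : ∃ b, IsBk Q ν a b := by
  have hadd : ∀ g g' : Lp ℝ 2 ν, ∫ x, a x * TT Q ((g + g' : Lp ℝ 2 ν) : S → ℝ) x ∂ν =
      ∫ x, a x * TT Q (g : S → ℝ) x ∂ν + ∫ x, a x * TT Q (g' : S → ℝ) x ∂ν := by
    intro g g'
    have hg := Lp.memLp g
    have hg' := Lp.memLp g'
    rw [← integral_add (int_mul ha (hT.t2 _ hg).1) (int_mul ha (hT.t2 _ hg').1)]
    have h1 : TT Q ((g + g' : Lp ℝ 2 ν) : S → ℝ) =ᵐ[ν] TT Q (fun y => g y + g' y) :=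
      hT.tae _ _ (Lp.coeFn_add g g')
    have h2 := hT.tadd (g : S → ℝ) (g' : S → ℝ) (hg.integrable (by norm_num))
      (hg'.integrable (by norm_num))
    refine integral_congr_ae ?_
    filter_upwards [h1, h2] with x e1 e2
    rw [e1, e2]
    ring
  have hsmul : ∀ (c : ℝ) (g : Lp ℝ 2 ν), ∫ x, a x * TT Q ((c • g : Lp ℝ 2 ν) : S → ℝ) x ∂ν =
      c • ∫ x, a x * TT Q (g : S → ℝ) x ∂ν := by
    intro c g
    have h1 : TT Q ((c • g : Lp ℝ 2 ν) : S → ℝ) =ᵐ[ν] TT Q (fun y => c * g y) :=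
      hT.tae _ _ (Lp.coeFn_smul c g)
    rw [smul_eq_mul, ← integral_const_mul]
    refine integral_congr_ae ?_
    filter_upwards [h1] with x e1
    rw [e1, TT_smul]
    ring
  let ℓ₀ : Lp ℝ 2 ν →ₗ[ℝ] ℝ :=
    { toFun := fun g => ∫ x, a x * TT Q (g : S → ℝ) x ∂ν
      map_add' := hadd
      map_smul' := hsmul }
  have hnorm : ∀ g : Lp ℝ 2 ν, ‖g‖ = √(∫ x, (g : S → ℝ) x ^ 2 ∂ν) := by
    intro g
    have h1 : ‖g‖ ^ 2 = ∫ x, (g : S → ℝ) x ^ 2 ∂ν := by
      rw [← real_inner_self_eq_norm_sq, L2.inner_def]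
      refine integral_congr_ae (ae_of_all _ fun x => ?_)
      simp only [RCLike.inner_apply, conj_trivial]
      ring
    rw [← h1, Real.sqrt_sq (norm_nonneg _)]
  have hb : ∀ g : Lp ℝ 2 ν, ‖ℓ₀ g‖ ≤ √(∫ x, a x ^ 2 ∂ν) * ‖g‖ := by
    intro g
    have hg := Lp.memLp g
    rw [hnorm]
    refine (cs ha (hT.t2 _ hg).1).trans ?_
    exact mul_le_mul_of_nonneg_left (Real.sqrt_le_sqrt (hT.t2 _ hg).2.1) (Real.sqrt_nonneg _)
  let ℓ : Lp ℝ 2 ν →L[ℝ] ℝ := ℓ₀.mkContinuous _ hb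
  let b : Lp ℝ 2 ν := (InnerProductSpace.toDual ℝ (Lp ℝ 2 ν)).symm ℓ
  refine ⟨b, (Lp.stronglyMeasurable b).measurable, Lp.memLp b, fun g hg hg2 => ?_⟩
  have h1 : inner ℝ b (hg2.toLp g) = ℓ (hg2.toLp g) :=
    InnerProductSpace.toDual_symm_apply
  rw [L2.inner_def] at h1
  have h2 := hg2.coeFn_toLp
  have h3 : ∫ x, b x * g x ∂ν = ∫ x, inner ℝ (b x) ((hg2.toLp g) x) ∂ν := by
    refine integral_congr_ae ?_
    filter_upwards [h2] with x hx
    rw [hx]
    simp only [RCLike.inner_apply, conj_trivial]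
    ring
  rw [h3, h1]
  change ∫ x, a x * TT Q ((hg2.toLp g : Lp ℝ 2 ν) : S → ℝ) x ∂ν = _
  refine integral_congr_ae ?_
  filter_upwards [hT.tae _ _ h2] with x hx
  rw [hx]

theorem isBk (hT : TF Q ν) (a : S → ℝ) (ha : MemLp a 2 ν) : IsBk Q ν a (bk Q ν a) := by
  have h := exists_bk hT a ha
  rw [bk, dif_pos h]
  exact h.choose_spec

theorem bk_meas (a : S → ℝ) : Measurable (bk Q ν a) := by
  unfold bk
  split_ifs with h
  · exact h.choose_spec.1
  · exact measurable_zero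

theorem uniq {a b b' : S → ℝ} (h : IsBk Q ν a b) (h' : IsBk Q ν a b') : b =ᵐ[ν] b' := by
  have hg : MemLp (fun x => b x - b' x) 2 ν := h.2.1.sub h'.2.1
  have hgm : Measurable (fun x => b x - b' x) := h.1.sub h'.1
  have e1 := h.2.2 _ hgm hg
  have e2 := h'.2.2 _ hgm hg
  have e3 : ∫ x, (b x - b' x) ^ 2 ∂ν = 0 := by
    have e4 : (fun x => (b x - b' x) ^ 2) = fun x => b x * (b x - b' x) - b' x * (b x - b' x) := by
      funext x; ring
    rw [e4, integral_sub (int_mul h.2.1 hg) (int_mul h'.2.1 hg), e1, e2, sub_self]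
  have e5 := (integral_eq_zero_iff_of_nonneg (fun x => sq_nonneg (b x - b' x)) (int_sq hg)).1 e3
  filter_upwards [e5] with x hx
  have : (b x - b' x) ^ 2 = 0 := hx
  have h0 := pow_eq_zero_iff (two_ne_zero) |>.1 this
  linarith

theorem contr (hT : TF Q ν) (a : S → ℝ) (ha : MemLp a 2 ν) :
    ∫ x, bk Q ν a x ^ 2 ∂ν ≤ ∫ x, a x ^ 2 ∂ν := by
  obtain ⟨hm, h2, h3⟩ := isBk hT a ha
  have e1 := h3 _ hm h2
  have hTb := hT.t2 _ h2
  have e2 : 0 ≤ ∫ x, (a x - TT Q (bk Q ν a) x) ^ 2 ∂ν := integral_nonneg fun x => sq_nonneg _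
  have e3 : ∫ x, (a x - TT Q (bk Q ν a) x) ^ 2 ∂ν =
      ∫ x, a x ^ 2 ∂ν - 2 * ∫ x, a x * TT Q (bk Q ν a) x ∂ν + ∫ x, TT Q (bk Q ν a) x ^ 2 ∂ν := by
    have e4 : (fun x => (a x - TT Q (bk Q ν a) x) ^ 2) =
        fun x => (a x ^ 2 - 2 * (a x * TT Q (bk Q ν a) x)) + TT Q (bk Q ν a) x ^ 2 := by
      funext x; ring
    rw [e4, integral_add, integral_sub, integral_const_mul]
    · exact int_sq ha
    · exact (int_mul ha hTb.1).const_mul _
    · exact (int_sq ha).sub ((int_mul ha hTb.1).const_mul _)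
    · exact int_sq hTb.1
  have e5 : ∫ x, bk Q ν a x * bk Q ν a x ∂ν = ∫ x, bk Q ν a x ^ 2 ∂ν := by
    refine integral_congr_ae (ae_of_all _ fun x => ?_)
    simp only
    ring
  have e6 := hTb.2.1
  rw [e3] at e2
  rw [e5] at e1
  linarith

theorem jensen (hT : TF Q ν) (a u : S → ℝ) (ha : MemLp a 2 ν) (hu : Measurable u)
    (hu0 : ∀ x, 0 ≤ u x) (hC : ∃ C : ℝ, ∀ x, u x ≤ C) :
    ∫ x, u x * bk Q ν a x ^ 2 ∂ν ≤ ∫ x, TT Q u x * a x ^ 2 ∂ν := by
  obtain ⟨C, hC⟩ := hC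
  obtain ⟨hm, h2, h3⟩ := isBk hT a ha
  set b := bk Q ν a with hb
  have hC0 : ∀ x, ‖u x‖ ≤ C := fun x => by rw [Real.norm_eq_abs, abs_of_nonneg (hu0 x)]; exact hC x
  have hub : MemLp (fun x => u x * b x) 2 ν := by
    refine MemLp.of_le_mul (c := C) h2 (hu.mul hm).aestronglyMeasurable (ae_of_all _ fun x => ?_)
    rw [norm_mul]
    gcongr
    exact hC0 x
  have hubb : Integrable (fun x => u x * b x ^ 2) ν := by
    refine Integrable.bdd_mul (c := C) (int_sq h2) hu.aestronglyMeasurable (ae_of_all _ hC0)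
  have hubm : Measurable (fun x => u x * b x) := hu.mul hm
  have e1 := h3 _ hubm hub
  have e2 : ∫ x, b x * (u x * b x) ∂ν = ∫ x, u x * b x ^ 2 ∂ν := by
    refine integral_congr_ae (ae_of_all _ fun x => ?_)
    simp only
    ring
  rw [e2] at e1
  -- pointwise inequality
  have hTu : ∀ x, |TT Q u x| ≤ C := by
    intro x
    have h5 : ‖∫ y, u y ∂(Q x)‖ ≤ C * (Q x).real Set.univ :=
      norm_integral_le_of_norm_le_const (ae_of_all _ hC0)
    simpa [TT] using h5
  have hTua : Integrable (fun x => TT Q u x * a x ^ 2) ν := by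
    refine Integrable.bdd_mul (c := C) (int_sq ha) (hT.tm u hu).aestronglyMeasurable
      (ae_of_all _ fun x => ?_)
    rw [Real.norm_eq_abs]
    exact hTu x
  have key : ∀ᵐ x ∂ν, 2 * (a x * TT Q (fun y => u y * b y) x) ≤
      TT Q u x * a x ^ 2 + TT Q (fun y => u y * b y ^ 2) x := by
    filter_upwards [(hT.t2 _ h2).2.2.1] with x hx
    have i1 : Integrable u (Q x) := by
      refine Integrable.of_bound (C := C) hu.aestronglyMeasurable (ae_of_all _ hC0)
    have i2 : Integrable (fun y => u y * b y) (Q x) := by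
      refine Integrable.bdd_mul (c := C) (hx.integrable (by norm_num)) hu.aestronglyMeasurable
        (ae_of_all _ hC0)
    have i3 : Integrable (fun y => u y * b y ^ 2) (Q x) := by
      refine Integrable.bdd_mul (c := C) hx.integrable_sq hu.aestronglyMeasurable
        (ae_of_all _ hC0)
    have h6 : 0 ≤ ∫ y, u y * (a x - b y) ^ 2 ∂(Q x) :=
      integral_nonneg fun y => mul_nonneg (hu0 y) (sq_nonneg _)
    have h7 : (fun y => u y * (a x - b y) ^ 2) = fun y =>
        (a x ^ 2 * u y - (2 * a x) * (u y * b y)) + u y * b y ^ 2 := by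
      funext y; ring
    rw [h7, integral_add, integral_sub, integral_const_mul, integral_const_mul] at h6
    · have h8 : TT Q u x = ∫ y, u y ∂(Q x) := rfl
      have h9 : TT Q (fun y => u y * b y) x = ∫ y, u y * b y ∂(Q x) := rfl
      have h10 : TT Q (fun y => u y * b y ^ 2) x = ∫ y, u y * b y ^ 2 ∂(Q x) := rfl
      rw [h8, h9, h10]
      linarith
    · exact i1.const_mul _
    · exact i2.const_mul _
    · exact (i1.const_mul _).sub (i2.const_mul _)
    · exact i3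
  have hti := hT.ti _ hubb
  have e3 : ∫ x, 2 * (a x * TT Q (fun y => u y * b y) x) ∂ν ≤
      ∫ x, (TT Q u x * a x ^ 2 + TT Q (fun y => u y * b y ^ 2) x) ∂ν := by
    refine integral_mono_ae ?_ ?_ key
    · exact (int_mul ha (hT.t2 _ hub).1).const_mul _
    · exact hTua.add hti.1
  rw [integral_const_mul, integral_add hTua hti.1, hti.2.1, ← e1] at e3
  linarith

theorem bk_add (hT : TF Q ν) (a a' : S → ℝ) (ha : MemLp a 2 ν) (ha' : MemLp a' 2 ν) :
    bk Q ν (fun x => a x + a' x) =ᵐ[ν] fun x => bk Q ν a x + bk Q ν a' x := by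
  obtain ⟨hm, h2, h3⟩ := isBk hT a ha
  obtain ⟨hm', h2', h3'⟩ := isBk hT a' ha'
  refine uniq (isBk hT _ (ha.add ha')) ⟨hm.add hm', h2.add h2', fun g hg hg2 => ?_⟩
  have hTg := (hT.t2 g hg2).1
  have e1 : (fun x => (bk Q ν a x + bk Q ν a' x) * g x) =
      fun x => bk Q ν a x * g x + bk Q ν a' x * g x := by funext x; ring
  have e2 : (fun x => (a x + a' x) * TT Q g x) = fun x => a x * TT Q g x + a' x * TT Q g x := by
    funext x; ring
  rw [e1, e2, integral_add (int_mul h2 hg2) (int_mul h2' hg2),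
    integral_add (int_mul ha hTg) (int_mul ha' hTg), h3 g hg hg2, h3' g hg hg2]

theorem bk_smul (hT : TF Q ν) (a : S → ℝ) (c : ℝ) (ha : MemLp a 2 ν) :
    bk Q ν (fun x => c * a x) =ᵐ[ν] fun x => c * bk Q ν a x := by
  obtain ⟨hm, h2, h3⟩ := isBk hT a ha
  refine uniq (isBk hT _ (ha.const_mul c)) ⟨hm.const_mul c, h2.const_mul c, fun g hg hg2 => ?_⟩
  have e1 : (fun x => c * bk Q ν a x * g x) = fun x => c * (bk Q ν a x * g x) := by
    funext x; ring
  have e2 : (fun x => c * a x * TT Q g x) = fun x => c * (a x * TT Q g x) := by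
    funext x; ring
  rw [e1, e2, integral_const_mul, integral_const_mul, h3 g hg hg2]

theorem bk_congr {a a' : S → ℝ} (h : a =ᵐ[ν] a') : bk Q ν a = bk Q ν a' := by
  have h1 : IsBk Q ν a = IsBk Q ν a' := by
    funext b
    refine propext ⟨fun hb => ⟨hb.1, hb.2.1, fun g hg hg2 => ?_⟩,
      fun hb => ⟨hb.1, hb.2.1, fun g hg hg2 => ?_⟩⟩
    · rw [hb.2.2 g hg hg2]
      refine integral_congr_ae ?_
      filter_upwards [h] with x hx
      rw [hx]
    · rw [hb.2.2 g hg hg2]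
      refine integral_congr_ae ?_
      filter_upwards [h] with x hx
      rw [hx]
  have h2 : ∀ P P' : (S → ℝ) → Prop, P = P' →
      (if h : ∃ b, P b then h.choose else 0) = (if h : ∃ b, P' b then h.choose else 0) := by
    rintro P P' rfl
    rfl
  exact h2 _ _ h1

theorem bk_mono (hT : TF Q ν) (a a' : S → ℝ) (ha : MemLp a 2 ν) (ha' : MemLp a' 2 ν)
    (hle : ∀ᵐ x ∂ν, a x ≤ a' x) : ∀ᵐ x ∂ν, bk Q ν a x ≤ bk Q ν a' x := by
  obtain ⟨hm, h2, h3⟩ := isBk hT a ha
  obtain ⟨hm', h2', h3'⟩ := isBk hT a' ha'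
  set b := bk Q ν a
  set b' := bk Q ν a'
  have hE : MeasurableSet {x | b' x < b x} := measurableSet_lt hm' hm
  set g : S → ℝ := {x | b' x < b x}.indicator 1 with hg
  have hgm : Measurable g := measurable_one.indicator hE
  have hg01 : ∀ x, 0 ≤ g x ∧ g x ≤ 1 := by
    intro x
    rw [hg, Set.indicator_apply]
    split_ifs <;> simp
  have hg2 : MemLp g 2 ν := by
    refine MemLp.of_bound hgm.aestronglyMeasurable 1 (ae_of_all _ fun x => ?_)
    rw [Real.norm_eq_abs, abs_of_nonneg (hg01 x).1]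
    exact (hg01 x).2
  have hTg := (hT.t2 g hg2).1
  have e1 := h3 g hgm hg2
  have e2 := h3' g hgm hg2
  have hTg0 : ∀ x, 0 ≤ TT Q g x := fun x => integral_nonneg fun y => (hg01 y).1
  have e3 : ∫ x, (b x - b' x) * g x ∂ν ≤ 0 := by
    have e4 : (fun x => (b x - b' x) * g x) = fun x => b x * g x - b' x * g x := by
      funext x; ring
    rw [e4, integral_sub (int_mul h2 hg2) (int_mul h2' hg2), e1, e2]
    have e5 : ∫ x, a x * TT Q g x ∂ν ≤ ∫ x, a' x * TT Q g x ∂ν := by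
      refine integral_mono_ae (int_mul ha hTg) (int_mul ha' hTg) ?_
      filter_upwards [hle] with x hx
      exact mul_le_mul_of_nonneg_right hx (hTg0 x)
    linarith
  have hnn : ∀ x, 0 ≤ (b x - b' x) * g x := by
    intro x
    rw [hg, Set.indicator_apply]
    split_ifs with h
    · have h4 : b' x < b x := h
      simp only [Pi.one_apply, mul_one]
      linarith
    · simp
  have hint : Integrable (fun x => (b x - b' x) * g x) ν := int_mul (h2.sub h2') hg2
  have e6 : ∫ x, (b x - b' x) * g x ∂ν = 0 := le_antisymm e3 (integral_nonneg hnn)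
  have e7 := (integral_eq_zero_iff_of_nonneg hnn hint).1 e6
  filter_upwards [e7] with x hx
  by_contra hlt
  push Not at hlt
  have h8 : (b x - b' x) * g x = 0 := hx
  have h9 : g x = 1 := by
    rw [hg, Set.indicator_apply, if_pos (show x ∈ {x | b' x < b x} from hlt)]
    rfl
  rw [h9, mul_one] at h8
  linarith

end

/-- ME2 -/
theorem bk1 (hTT : S_TT) : S_BK1 := by
  intro S _ Q _ ν _ hν
  obtain ⟨a1, a2, a3, a4, a5, a6⟩ := hTT S Q ν hν
  have hT : TF Q ν := ⟨a1, a2, a3, a4, a5, a6⟩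
  refine ⟨fun a ha => isBk hT a ha, fun a => bk_meas a, fun a b b' h h' => uniq h h',
    fun a ha => contr hT a ha, fun a u ha hu h0 hC => jensen hT a u ha hu h0 hC,
    fun a a' ha ha' => bk_add hT a a' ha ha', fun a c ha => bk_smul hT a c ha,
    fun a a' h => ?_, fun a a' ha ha' h => bk_mono hT a a' ha ha' h⟩
  rw [bk_congr (Q := Q) h]

end Pool.Agent.N80.ME
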